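import Pool.Agent.H34.TAM.Stmts3
import Pool.Agent.H71.AUT.CHN

set_option autoImplicit false

noncomputable section

open scoped TensorProduct

namespace Pool.PER

open Pool.CGR Pool.CGS Pool.TAM Pool.AUT MulOpposite

namespace H34

variable {m : ℕ}

theorem ac_mul (z z' : Te m) (q : Fr m) : ac (z * z') q = ac z (ac z' q) := by
  unfold ac
  rw [map_mul]
  rfl

theorem ac_add (z z' : Te m) (q : Fr m) : ac (z + z') q = ac z q + ac z' q := by
  unfold ac
  rw [map_add]
  rfl

theorem ac_zero (q : Fr m) : ac (0 : Te m) q = 0 := by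
  unfold ac
  rw [map_zero]
  rfl

theorem ac_one (q : Fr m) : ac (1 : Te m) q = q := by
  unfold ac
  rw [map_one]
  rfl

theorem ac_sum {ι : Type} (s : Finset ι) (z : ι → Te m) (q : Fr m) :
    ac (∑ i ∈ s, z i) q = ∑ i ∈ s, ac (z i) q := by
  classical
  induction s using Finset.induction_on with
  | empty => simp [ac_zero]
  | insert a s ha ih => rw [Finset.sum_insert ha, Finset.sum_insert ha, ac_add, ih]

theorem ac_sum' {ι : Type} (s : Finset ι) (z : Te m) (q : ι → Fr m) :
    ac z (∑ i ∈ s, q i) = ∑ i ∈ s, ac z (q i) := by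
  unfold ac
  rw [map_sum]

theorem ac_tmul (a : Fr m) (b : (Fr m)ᵐᵒᵖ) (q : Fr m) : ac (a ⊗ₜ[ℂ] b) q = a * q * unop b := by
  unfold ac
  rw [AlgHom.mulLeftRight_apply]

theorem der_one {δ : Fr m →ₗ[ℂ] Fr m} (hδ : IsDer δ) : δ 1 = 0 := by
  have h := hδ 1 1
  rw [mul_one, mul_one, one_mul] at h
  exact left_eq_add.1 h

theorem pd_one {D : Fin m → (Fr m →ₗ[ℂ] Te m)} (hD : IsPd D) (k : Fin m) : D k 1 = 0 := by
  have h := hD.mul k 1 1
  have h1 : ((1 : Fr m) ⊗ₜ[ℂ] (1 : (Fr m)ᵐᵒᵖ)) = (1 : Te m) := rfl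
  rw [mul_one, op_one, h1, one_mul] at h
  exact left_eq_add.1 h

end H34

open H34

theorem dif_thm34 : DIFStmt := by
  intro m D hD
  have h3 : ∀ δ : Fr m →ₗ[ℂ] Fr m, IsDer δ → ∀ f, δ f = ∑ k, ac (D k f) (δ (io k)) := by
    intro δ hδ f
    induction f using FreeAlgebra.induction with
    | grade0 r =>
      rw [Algebra.algebraMap_eq_smul_one, map_smul, der_one hδ, smul_zero]
      symm
      refine Finset.sum_eq_zero fun k _ => ?_
      rw [map_smul, pd_one hD, smul_zero, ac_zero]
    | grade1 j =>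
      rw [Finset.sum_eq_single j]
      · rw [hD.gen, if_pos rfl, ac_one]
      · intro k _ hk
        rw [hD.gen, if_neg (Ne.symm hk), ac_zero]
      · intro h
        exact absurd (Finset.mem_univ j) h
    | mul a b ha hb =>
      have : ∀ k, ac (D k (a * b)) (δ (io k)) =
          a * ac (D k b) (δ (io k)) + ac (D k a) (δ (io k)) * b := by
        intro k
        rw [hD.mul, ac_add, ac_mul, ac_mul, ac_tmul, ac_tmul]
        simp
      rw [hδ, Finset.sum_congr rfl fun k _ => this k, Finset.sum_add_distrib, ← Finset.mul_sum,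
        ← Finset.sum_mul, ← ha, ← hb, add_comm]
    | add a b ha hb =>
      simp only [map_add, ac_add, Finset.sum_add_distrib]
      rw [← ha, ← hb]
  refine ⟨ac_mul, fun φ z q => ?_, h3, fun δ hδ φ H => ?_⟩
  · induction z using TensorProduct.induction_on with
    | zero => rw [ac_zero, map_zero, map_zero, ac_zero]
    | tmul a b =>
      rw [ac_tmul, map_mul, map_mul]
      have : ph φ (a ⊗ₜ[ℂ] b) = (φ a) ⊗ₜ[ℂ] (AlgHom.op φ b) := by
        unfold ph
        rw [Algebra.TensorProduct.map_tmul]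
      rw [this, ac_tmul]
      rfl
    | add z z' hz hz' => rw [ac_add, map_add, hz, hz', map_add, ac_add]
  · rw [h3 δ hδ (φ H)]
    have h5 : ∀ k, ac (D k (φ H)) (δ (io k)) =
        ∑ j, ac (ph φ (D j H)) (ac (D k (φ (io j))) (δ (io k))) := by
      intro k
      rw [chn_thm m D hD φ H k, ac_sum]
      exact Finset.sum_congr rfl fun j _ => ac_mul _ _ _
    rw [Finset.sum_congr rfl fun k _ => h5 k, Finset.sum_comm]
    refine Finset.sum_congr rfl fun j _ => ?_
    rw [← ac_sum', ← h3 δ hδ (φ (io j))]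

end Pool.PER
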