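import Pool.Agent.H34.TAM.Stmts3

set_option autoImplicit false

noncomputable section

open Filter
open scoped Topology TensorProduct

namespace Pool.PER

open Pool.CGR Pool.CGS Pool.TAM Pool.AUT MulOpposite

theorem per_thm34 (h1 : PDXStmt) (h2 : TDRStmt) (h3 : DPEStmt) (h4 : NUXStmt) (h5 : NUMStmt)
    (h6 : APPStmt) (h7 : LNKStmt) (h8 : YDVStmt) (h9 : PEAStmt) : PERStmt := by
  intro hN m A _ τ hτ x p hY
  obtain ⟨D, hD⟩ := h1 m
  obtain ⟨r, hr⟩ : ∃ r : ℝ, r = 1 + ∑ i, ‖x i‖ := ⟨_, rfl⟩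
  have hr1 : 1 ≤ r := by
    have : 0 ≤ ∑ i, ‖x i‖ := Finset.sum_nonneg fun i _ => norm_nonneg _
    linarith
  have hx : ∀ i, ‖x i‖ ≤ r := by
    intro i
    have h := Finset.single_le_sum (f := fun i => ‖x i‖) (fun i _ => norm_nonneg _)
      (Finset.mem_univ i)
    have h' : ‖x i‖ ≤ ∑ i, ‖x i‖ := h
    linarith
  obtain ⟨ν, hν⟩ := h4 m r (by linarith)
  have hdat : Dat τ x r ν := ⟨hτ, hr1, hx, hν⟩
  obtain ⟨ε₁, hε₁, happ⟩ := h6 m r ν D hr1 hν hD p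
  obtain ⟨hYh, C, hC0, hC⟩ := h8 m A τ hτ x D hD hY
  obtain ⟨B, hB⟩ : ∃ B : ℝ, B = ∑ j, ∑ k, ν (D k (p j)) := ⟨_, rfl⟩
  have hB0 : 0 ≤ B := by
    rw [hB]
    exact Finset.sum_nonneg fun j _ => Finset.sum_nonneg fun k _ => hν.nonneg _
  refine ⟨min ε₁ (1 / (2 * (1 + B))), by positivity, fun ε hε => ?_⟩
  have hε1 : ‖ε‖ ≤ ε₁ := hε.trans (min_le_left _ _)
  have hε2 : ‖ε‖ ≤ 1 / (2 * (1 + B)) := hε.trans (min_le_right _ _)
  obtain ⟨L, hLd⟩ : ∃ L : Matrix (Fin m) (Fin m) (Te m), L = Matrix.of fun j k =>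
    -(ε • D k (p j)) := ⟨_, rfl⟩
  obtain ⟨F, hFd⟩ : ∃ F : Fin m → Fr m, F = su p ε := ⟨_, rfl⟩
  have hF : ∀ j k, D k (F j) = (1 - L) j k := by
    intro j k
    rw [hFd, hLd]
    show D k (io j + ε • p j) = (1 : Matrix (Fin m) (Fin m) (Te m)) j k - (-(ε • D k (p j)))
    rw [map_add, map_smul, hD.gen, Matrix.one_apply, sub_neg_eq_add]
  have hL : nm ν L ≤ 1 / 2 := by
    have h : nm ν L ≤ ‖ε‖ * B := by
      unfold nm
      rw [hB, Finset.mul_sum]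
      refine Finset.sum_le_sum fun j _ => ?_
      rw [Finset.mul_sum]
      refine Finset.sum_le_sum fun k _ => ?_
      rw [hLd]
      show ν (-(ε • D k (p j))) ≤ _
      have hs := hν.smul (-ε) (D k (p j))
      have e : (-(ε • D k (p j)) : Te m) = (-ε) • D k (p j) := by
        refine neg_eq_of_add_eq_zero_left ?_
        rw [← add_smul, neg_add_cancel, zero_smul]
      rw [e]
      rwa [norm_neg] at hs
    refine h.trans ?_
    calc ‖ε‖ * B ≤ 1 / (2 * (1 + B)) * (1 + B) :=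
          mul_le_mul hε2 (by linarith) hB0 (by positivity)
      _ = 1 / 2 := by field_simp
  have hyf : (fun j => x j + ε • FreeAlgebra.lift ℂ x (p j)) =
      fun j => FreeAlgebra.lift ℂ x (F j) := by
    funext j
    rw [hFd]
    show _ = FreeAlgebra.lift ℂ x (io j + ε • p j)
    rw [map_add, map_smul, FreeAlgebra.lift_ι_apply]
  rw [hyf]
  intro ε' hε'
  obtain ⟨η, hη⟩ : ∃ η : ℝ, η = ε' / (4 * ((m : ℝ) + 1)) := ⟨_, rfl⟩
  have hm0 : (0 : ℝ) < (m : ℝ) + 1 := by positivity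
  have hη0 : 0 < η := by
    rw [hη]
    positivity
  obtain ⟨N', hN'⟩ := exists_pow_lt_of_lt_one hη0 (by norm_num : (1 / 2 : ℝ) < 1)
  obtain ⟨h, hh⟩ := hYh η hη0
  obtain ⟨H', hH'⟩ := happ ε hε1 (h - ∑ j, re (tx τ x) (lo L N' j j)) η hη0
  rw [← hFd] at hH'
  obtain ⟨H, hH⟩ := (h3 m A τ x D hD).1 H'
  refine ⟨H, fun i P => ?_⟩
  obtain ⟨y, hy⟩ : ∃ y : Fin m → A, y = fun j => FreeAlgebra.lift ℂ x (F j) := ⟨_, rfl⟩
  rw [← hy]
  have hly : ∀ q : Fr m, FreeAlgebra.lift ℂ y q =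
      FreeAlgebra.lift ℂ x (FreeAlgebra.lift ℂ F q) := by
    intro q
    have h0 : FreeAlgebra.lift ℂ y =
        (FreeAlgebra.lift ℂ x).comp (FreeAlgebra.lift ℂ F) := by
      refine FreeAlgebra.hom_ext ?_
      funext j
      simp [hy]
    rw [h0]
    rfl
  have htx : tx τ y = tx τ x ∘ₗ (FreeAlgebra.lift ℂ F).toLinearMap := by
    refine LinearMap.ext fun q => ?_
    show τ (FreeAlgebra.lift ℂ y q) = τ (FreeAlgebra.lift ℂ x (FreeAlgebra.lift ℂ F q))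
    rw [hly]
  have e1 : dp τ y i P = tt (tx τ x) (ph (FreeAlgebra.lift ℂ F) (D i (pe io P))) := by
    rw [(h3 m A τ y D hD).2.2 i P, htx]
    exact ((h2 m).2 (tx τ x)).2.2 (FreeAlgebra.lift ℂ F) (D i (pe io P))
  have e2 : τ (cp y i H * pe y P) =
      tx τ x (ac (ph (FreeAlgebra.lift ℂ F) (D i H')) (FreeAlgebra.lift ℂ F (pe io P))) := by
    have := h7 m A τ hτ x D hD F i H P
    rw [hH] at this
    rw [hy]
    exact this
  have e3 : pe y P = FreeAlgebra.lift ℂ x (FreeAlgebra.lift ℂ F (pe io P)) := by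
    rw [← hly]
    exact ((h3 m A τ y D hD).2.1 P).symm
  rw [e1, e2, e3]
  obtain ⟨n, hn⟩ : ∃ n : ℝ,
    n = n2 τ (FreeAlgebra.lift ℂ x (FreeAlgebra.lift ℂ F (pe io P))) := ⟨_, rfl⟩
  have hn0 : 0 ≤ n := by
    rw [hn]
    exact Real.sqrt_nonneg _
  rw [← hn]
  obtain ⟨K, hK⟩ : ∃ K : ℝ, K = (2 * (C + 4) * (m + 1) +
      ∑ j, ν (ph (FreeAlgebra.lift ℂ F) (D j H'))) * n +
        ∑ k, ν (ph (FreeAlgebra.lift ℂ F) (D k (pe io P))) := ⟨_, rfl⟩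
  have hmain : ∀ N : ℕ, N' ≤ N →
      ‖tt (tx τ x) (ph (FreeAlgebra.lift ℂ F) (D i (pe io P))) -
        tx τ x (ac (ph (FreeAlgebra.lift ℂ F) (D i H')) (FreeAlgebra.lift ℂ F (pe io P)))‖ ≤
      (2 * η + (1 / 2) ^ N') * (m + 1) * n + (1 / 2) ^ (N + 1) * K := by
    intro N hNN
    have := h9 hN h5 m A τ x r ν hdat D hD F L hF hL C hC0 hC η h hη0.le hh N' H' hH' i (pe io P)
      N hNN
    rw [← hn, ← hK] at this
    exact this
  have hlim : Tendsto (fun N : ℕ => (2 * η + (1 / 2) ^ N') * (m + 1) * n +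
      (1 / 2 : ℝ) ^ (N + 1) * K) atTop
      (𝓝 ((2 * η + (1 / 2) ^ N') * (m + 1) * n + 0 * K)) := by
    refine Tendsto.add tendsto_const_nhds (Tendsto.mul ?_ tendsto_const_nhds)
    exact (tendsto_pow_atTop_nhds_zero_of_lt_one (by norm_num) (by norm_num)).comp
      (tendsto_add_atTop_nat 1)
  refine (ge_of_tendsto hlim (eventually_atTop.2 ⟨N', fun N hNN => hmain N hNN⟩)).trans ?_
  rw [zero_mul, add_zero]
  refine mul_le_mul_of_nonneg_right ?_ hn0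
  have h3η : 2 * η + (1 / 2) ^ N' ≤ 3 * η := by linarith
  calc (2 * η + (1 / 2) ^ N') * ((m : ℝ) + 1) ≤ 3 * η * ((m : ℝ) + 1) :=
        mul_le_mul_of_nonneg_right h3η hm0.le
    _ = 3 / 4 * ε' := by
        rw [hη]
        field_simp
    _ ≤ ε' := by linarith

end Pool.PER
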